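import Pool.Agent.MP_3ce0a0_al.Q2C.Cov
import Pool.Agent.MP_3ce0a0_al.Q2T8.KPS
import Pool.Agent.MP_3ce0a0_al.Q2T4A.Alg

/-! Embeddings of covering type and subgroups of the automorphism group that surject to the outer
automorphism group. -/

set_option autoImplicit false

namespace Pool.Agent.MP_3ce0a0_al.Q2C

open H79 Q2T15

/-- The index formula. -/
theorem schreier {α β : Type} [Finite α] [Finite β] (j : FreeGroup β →* FreeGroup α)
    (hj : Function.Injective j) [j.range.FiniteIndex] :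
    j.range.index + Nat.card β = 1 + j.range.index * Nat.card α := by
  let l : FreeGroup β →* Equiv.Perm (FreeGroup α) :=
    MonoidHom.mk' (fun u => Equiv.mulLeft (j u)) fun u v => by ext x; simp [mul_assoc]
  let r : FreeGroup α →* Equiv.Perm (FreeGroup α) :=
    MonoidHom.mk' (fun t => Equiv.mulRight t⁻¹) fun u v => by ext x; simp [mul_assoc]
  have el : ∀ u x, l u x = j u * x := fun _ _ => rfl
  have er : ∀ t x, r t x = x * t⁻¹ := fun _ _ => rfl
  let S := QuotientGroup.rightRel j.range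
  have hc : ∀ u π, Quotient.mk S (l u π) = Quotient.mk S π := fun u π =>
    (Quotient.sound (s := S) ((QuotientGroup.rightRel_apply (s := j.range)).2
      ⟨u, by rw [el, mul_inv_cancel_right]⟩)).symm
  have hs : ∀ π, ∃ u, l u (Quotient.mk S π).out = π := fun π => by
    obtain ⟨u, hu⟩ := QuotientGroup.rightRel_apply.1 (Quotient.mk_out (s := S) π)
    exact ⟨u, by rw [el, hu, inv_mul_cancel_right]⟩
  have hd : Nat.card (Quotient S) = j.range.index :=
    Nat.card_congr (QuotientGroup.quotientRightRelEquivQuotientLeftRel _)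
  have : Finite (Quotient S) :=
    Nat.finite_of_card_ne_zero (hd ▸ Subgroup.FiniteIndex.index_ne_zero)
  have h1 := Q2T14.RIndex.card_left (Q := ℤˣ) l
    (fun u π h => hj (by rw [el, mul_eq_right] at h; rw [h, map_one])) (Quotient.mk S)
    Quotient.out hc Quotient.out_eq hs
  have h2 := Q2T14.RIndex.card_right (Q := ℤˣ) l r (fun u t π => by rw [el, er, er, el, mul_assoc])
    (fun t π h => by rwa [er, mul_eq_left, inv_eq_one] at h)
    (fun π π' => ⟨π'⁻¹ * π, by rw [er]; group⟩) 1 (Quotient.mk S) Quotient.out hc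
    Quotient.out_eq hs
  have h3 : Nat.card ℤˣ = 2 := by rw [Nat.card_eq_fintype_card, Fintype.card_units_int]
  rw [h1] at h2
  simp only [Nat.card_prod, Nat.card_fun, h3] at h2
  rw [← pow_add, ← pow_mul, ← pow_succ'] at h2
  have h4 := Nat.pow_right_injective (le_refl 2) h2
  rw [hd] at h4
  omega

variable {A : Type} [Group A]

theorem ex_dec {Γ : Subgroup (MulAut A)} (h : Γ ⊔ Inn A = ⊤) (γ : MulAut A) :
    ∃ x, ∃ δ ∈ Γ, γ = MulAut.conj x * δ := by
  have : γ ∈ Inn A ⊔ Γ := by rw [sup_comm, h]; trivial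
  obtain ⟨_, ⟨x, rfl⟩, δ, hδ, e⟩ := Subgroup.mem_sup_of_normal_left.1 this
  exact ⟨x, δ, hδ, e.symm⟩

theorem index_comap {Γ : Subgroup (MulAut A)} (h : Γ ⊔ Inn A = ⊤) :
    (Γ.comap (MulAut.conj : A →* MulAut A)).index = Γ.index := by
  refine Nat.card_eq_of_bijective (Quotient.map' (fun x => MulAut.conj x) fun x y hxy => ?_)
    ⟨fun p q => ?_, fun q => ?_⟩
  · rw [QuotientGroup.leftRel_apply] at hxy ⊢
    rwa [Subgroup.mem_comap, map_mul, map_inv] at hxy
  · induction p using Quotient.inductionOn' with | h x => ?_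
    induction q using Quotient.inductionOn' with | h y => ?_
    intro e
    refine QuotientGroup.eq.2 ?_
    rw [Subgroup.mem_comap, map_mul, map_inv]
    exact QuotientGroup.eq.1 e
  · obtain ⟨γ, rfl⟩ := QuotientGroup.mk_surjective q
    obtain ⟨x, δ, hδ, rfl⟩ := ex_dec h γ
    exact ⟨QuotientGroup.mk x, QuotientGroup.eq.2 (by rwa [inv_mul_cancel_left])⟩

/-- An automorphism of a free group that fixes a subgroup of finite index is trivial. -/
theorem eq_of_fi [IsFreeGroup A] (H : Subgroup A) [H.FiniteIndex] {γ δ : MulAut A}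
    (h : ∀ x ∈ H, γ x = δ x) : γ = δ :=
  MulEquiv.toMonoidHom_injective (Q2T4A.hom_eq_of_finiteIndex H h)

theorem gamma_of_cover [IsFreeGroup A] (hA : ∃ x y : A, ¬ Commute x y) {F : Type} [Group F]
    {ρ : Out A →* Out F} {j : F →* A} (h : Cover ρ j) :
    ∃ Γ : Subgroup (MulAut A), Γ ⊔ Inn A = ⊤ ∧ Γ.index = j.range.index := by
  let Γ : Subgroup (MulAut A) :=
    { carrier := {γ | ∃ a : MulAut F, mkOut F a = ρ (mkOut A γ) ∧ ∀ u, j (a u) = γ (j u)}
      one_mem' := ⟨1, by simp, fun _ => rfl⟩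
      mul_mem' := fun ⟨a, h1, h2⟩ ⟨b, h3, h4⟩ => ⟨a * b, by simp [h1, h3], fun u => by
        rw [MulAut.mul_apply, MulAut.mul_apply, h2, h4]⟩
      inv_mem' := fun {γ} ⟨a, h1, h2⟩ => ⟨a⁻¹, by simp [h1], fun u => γ.injective (by
        rw [← h2, MulAut.apply_inv_self, MulAut.apply_inv_self])⟩ }
  have h1 : Γ ⊔ Inn A = ⊤ := by
    refine eq_top_iff.2 fun γ _ => ?_
    obtain ⟨a, ha⟩ := mkOut_surjective F (ρ (mkOut A γ))
    obtain ⟨t, ht⟩ := h.res γ a ha
    have e : γ = MulAut.conj t⁻¹ * (MulAut.conj t * γ) := by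
      rw [map_inv, inv_mul_cancel_left]
    rw [e]
    exact mul_mem (Subgroup.mem_sup_right ⟨_, rfl⟩) (Subgroup.mem_sup_left
      ⟨a, by rw [map_mul, mkOut_conj, one_mul, ha], ht⟩)
  refine ⟨Γ, h1, ?_⟩
  rw [← index_comap h1]
  congr 1
  ext x
  constructor
  · rintro ⟨a, ha, h2⟩
    rw [mkOut_conj, map_one] at ha
    obtain ⟨g, rfl⟩ := mkOut_eq_one.1 ha
    have := h.fi
    have e : MulAut.conj (j g) = MulAut.conj x := eq_of_fi j.range (by
      rintro _ ⟨u, rfl⟩
      rw [← h2]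
      simp)
    obtain ⟨p, q, hpq⟩ := hA
    have key : ∀ y, Commute (x⁻¹ * j g) y := fun y => by
      have := DFunLike.congr_fun e y
      rw [MulAut.conj_apply, MulAut.conj_apply] at this
      rw [Commute, SemiconjBy, mul_assoc, eq_mul_of_mul_inv_eq this]
      group
    exact ⟨g, (inv_mul_eq_one.1 (Q2T4A.eq_one_of_comm hpq (key p) (key q))).symm⟩
  · rintro ⟨g, rfl⟩
    exact ⟨MulAut.conj g, by rw [mkOut_conj, mkOut_conj, map_one], fun u => by simp⟩

/-- Restriction to the subgroup cut out by `Γ`. -/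
def resG (Γ : Subgroup (MulAut A)) : Γ →* MulAut (Γ.comap (MulAut.conj : A →* MulAut A)) :=
  have key : ∀ (γ : Γ) (x : Γ.comap (MulAut.conj : A →* MulAut A)),
      γ.1 x ∈ Γ.comap (MulAut.conj : A →* MulAut A) := fun γ x => by
    have e : MulAut.conj (γ.1 x) = γ.1 * MulAut.conj x.1 * γ.1⁻¹ := by ext y; simp
    rw [Subgroup.mem_comap, e]
    exact mul_mem (mul_mem γ.2 x.2) (inv_mem γ.2)
  { toFun := fun γ =>
      { toFun := fun x => ⟨γ.1 x, key γ x⟩
        invFun := fun x => ⟨γ⁻¹.1 x, key γ⁻¹ x⟩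
        left_inv := fun x => Subtype.ext (by simp)
        right_inv := fun x => Subtype.ext (by simp)
        map_mul' := fun x y => Subtype.ext (by simp) }
    map_one' := rfl
    map_mul' := fun _ _ => rfl }

theorem resG_coe (Γ : Subgroup (MulAut A)) (γ : Γ) (x : Γ.comap (MulAut.conj : A →* MulAut A)) :
    (resG Γ γ x : A) = γ.1 x := rfl

theorem emb_sub [IsFreeGroup A] {Γ : Subgroup (MulAut A)} (h : Γ ⊔ Inn A = ⊤)
    (hd : Γ.index ≠ 0) :
    ∃ φ : Out A →* Out (Γ.comap (MulAut.conj : A →* MulAut A)), Function.Injective φ := by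
  have fi : (Γ.comap (MulAut.conj : A →* MulAut A)).FiniteIndex := ⟨by rwa [index_comap h]⟩
  let q : Γ →* Out A := (mkOut A).comp Γ.subtype
  let ψ := (mkOut _).comp (resG Γ)
  have hq : Function.Surjective q := fun θ => by
    obtain ⟨γ, rfl⟩ := mkOut_surjective A θ
    obtain ⟨x, δ, hδ, rfl⟩ := ex_dec h γ
    exact ⟨⟨δ, hδ⟩, by rw [map_mul, mkOut_conj, one_mul]; rfl⟩
  have key : ∀ γ : Γ, q γ = 1 ↔ ψ γ = 1 := fun γ => by
    refine mkOut_eq_one.trans (Iff.trans ?_ mkOut_eq_one.symm)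
    constructor
    · rintro ⟨x, hx⟩
      have hx' : MulAut.conj x = γ.1 := hx
      refine ⟨⟨x, by rw [Subgroup.mem_comap, hx']; exact γ.2⟩, ?_⟩
      ext y
      exact DFunLike.congr_fun hx' y.1
    · rintro ⟨x, hx⟩
      refine ⟨x.1, eq_of_fi (Γ.comap (MulAut.conj : A →* MulAut A)) fun y hy => ?_⟩
      have := congrArg Subtype.val (DFunLike.congr_fun hx ⟨y, hy⟩)
      rw [resG_coe] at this
      simpa using this
  refine ⟨q.liftOfSurjective hq ⟨ψ, fun γ hγ => (key γ).1 hγ⟩, ?_⟩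
  rw [injective_iff_map_eq_one]
  intro θ hθ
  obtain ⟨γ, rfl⟩ := hq θ
  rw [MonoidHom.liftOfRightInverse_comp_apply] at hθ
  exact (key γ).2 hθ

/-- The covering construction. -/
theorem emb_of_gamma {n m : ℕ} (hn : 1 ≤ n) {Γ : Subgroup (MulAut (FreeGroup (Fin n)))}
    (h : Γ ⊔ Inn _ = ⊤) (hd : Γ.index ≠ 0) (hm : m = 1 + Γ.index * (n - 1)) :
    ∃ φ : Out (FreeGroup (Fin n)) →* Out (FreeGroup (Fin m)), Function.Injective φ := by
  obtain ⟨φ, hφ⟩ := emb_sub h hd
  have hi := index_comap h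
  generalize Γ.comap (MulAut.conj : FreeGroup (Fin n) →* _) = H at φ hφ hi
  have fi : H.FiniteIndex := ⟨by rwa [hi]⟩
  obtain ⟨k, ⟨e⟩⟩ := Q2T8.exists_rank H
  have hr : (H.subtype.comp e.toMonoidHom).range = H := by
    rw [MonoidHom.range_comp, MonoidHom.range_eq_top.2 e.surjective, ← MonoidHom.range_eq_map,
      Subgroup.range_subtype]
  have fi2 : (H.subtype.comp e.toMonoidHom).range.FiniteIndex := hr.symm ▸ fi
  have hs := schreier (α := Fin n) (β := Fin k) (H.subtype.comp e.toMonoidHom)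
    (H.subtype_injective.comp e.injective)
  rw [hr, hi, Nat.card_fin, Nat.card_fin] at hs
  have hk : k = m := by
    obtain ⟨n, rfl⟩ := Nat.exists_eq_add_of_le' hn
    rw [Nat.add_sub_cancel] at hm
    rw [Nat.mul_succ] at hs
    omega
  subst hk
  obtain ⟨θ, hθ, -⟩ := Q2T8.exists_outHom e.symm
  exact ⟨θ.comp φ, hθ.comp hφ⟩

theorem gamma_of_emb {n m : ℕ} (hn : 1 ≤ n) (hA : ∃ x y : FreeGroup (Fin n), ¬ Commute x y)
    {ρ : Out (FreeGroup (Fin n)) →* Out (FreeGroup (Fin m))}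
    {j : FreeGroup (Fin m) →* FreeGroup (Fin n)} (h : Cover ρ j) :
    ∃ Γ : Subgroup (MulAut (FreeGroup (Fin n))), Γ ⊔ Inn _ = ⊤ ∧ Γ.index ≠ 0 ∧
      m = 1 + Γ.index * (n - 1) := by
  obtain ⟨Γ, h1, h2⟩ := gamma_of_cover hA h
  have := h.fi
  have hs := schreier j h.inj
  rw [Nat.card_fin, Nat.card_fin, ← h2] at hs
  refine ⟨Γ, h1, h2 ▸ Subgroup.FiniteIndex.index_ne_zero, ?_⟩
  obtain ⟨n, rfl⟩ := Nat.exists_eq_add_of_le' hn
  rw [Nat.add_sub_cancel]
  rw [Nat.mul_succ] at hs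
  omega

end Pool.Agent.MP_3ce0a0_al.Q2C
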