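import Pool.Agent.MP_3ce0a0_al.Q2T14.Main
import Pool.Agent.MP_3ce0a0_al.Q2T15.G
import Pool.Agent.MP_3ce0a0_al.H28.Niel

/-! A system of ports shows that the homomorphism is induced by a subgroup of finite index. -/

set_option autoImplicit false

namespace Pool.Agent.MP_3ce0a0_al.Q2C

open H79 Q2T15 Q2T14 Filter

variable {α F : Type} [Group F] {ρ : Out (FreeGroup α) →* Out F}
  {P : Finset α → (FreeGroup α → F) → Prop}

/-- `ρ` is given by restriction of automorphisms to the image of `j`. -/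
structure Cover {A : Type} [Group A] (ρ : Out A →* Out F) (j : F →* A) : Prop where
  inj : Function.Injective j
  fi : j.range.FiniteIndex
  res : ∀ (γ : MulAut A) (a : MulAut F), mkOut F a = ρ (mkOut A γ) →
    ∃ t, ∀ u, j (a u) = t * γ (j u) * t⁻¹

/-- An automorphism that involves at most two letters induces a map of the global sections. -/
theorem ex_lam [Finite α] (hn : 8 ≤ Nat.card α) (hP : PortSys ρ P) (A : Acts P) {Y : Finset α}
    (hY : Y.card ≤ 2) {γ : MulAut (FreeGroup α)} (hγ : γ ∈ NA (Y : Set α)) {a : MulAut F}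
    (ha : Lifts ρ γ a) : ∃ l : A.Φ → A.Φ, (∀ t π, l (A.r t π) = A.r (γ t) (l π)) ∧
      ∀ u π, l (A.l u π) = A.l (a u) (l π) := by
  classical
  have ok : ∀ x, ∃ I : Finset α, Ok I ∧ x ∈ I ∧ Y ⊆ I := fun x => by
    obtain ⟨I, h1, h2, -⟩ := exists_set (A := insert x Y) (Z := ∅) (k := 3)
      (Finset.disjoint_empty_right _) ((Finset.card_insert_le _ _).trans (by omega))
      (by rw [Finset.card_empty]; omega)
    exact ⟨I, ⟨h1.ge, by omega⟩, h2 (by simp), (Finset.subset_insert _ _).trans h2⟩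
  have na : ∀ {I : Finset α}, Y ⊆ I → γ ∈ NA (I : Set α) :=
    fun h => NA_mono (Finset.coe_subset.2 h) hγ
  have td : ∀ {I : Finset α}, Y ⊆ I → Tendsto (fun w => γ⁻¹ w) (deep I) (deep I) :=
    fun h => tendsto_aut _ fun _ hw => NA_mem (inv_mem (na h)) hw
  obtain ⟨x₀, -⟩ := exists_notMem (α := α) (S := ∅) (by rw [Finset.card_empty]; omega)
  obtain ⟨I₀, h₀, -, hy₀⟩ := ok x₀
  have key : ∀ π, ∃ π', ∀ I, Ok I → Y ⊆ I →
      A.rep π' =ᶠ[deep I] fun w => a (A.rep π (γ⁻¹ w)) := by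
    intro π
    refine A.toAtlas.glue hP Y (fun I hI hy => ?_) h₀ hy₀
    obtain ⟨x, hx⟩ := exists_notMem (S := I) (by have := hI.2; omega)
    exact hP.aut I _ x _ a hI (A.mem π I hI) hx
      (NA_mono (Set.subset_compl_singleton_iff.2 (by simpa using hx)) (na hy)) (na hy).2 ha
  choose l hl using key
  have e1 : ∀ {I : Finset α}, Ok I → Y ⊆ I → ∀ {t}, t ∈ std (I : Set α) → ∀ π,
      l (A.r t π) = A.r (γ t) (l π) := by
    intro I hI hy t ht π
    have ht' := NA_mem (na hy) ht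
    refine A.inj _ _ I hI ?_
    filter_upwards [hl (A.r t π) I hI hy, (td hy).eventually (A.r_rep t π I hI ht),
      A.r_rep _ (l π) I hI ht', (tendsto_conj ht').eventually (hl π I hI hy)] with w e1 e2 e3 e4
    rw [e1, e2, e3, e4, map_mul, map_mul, map_inv, MulAut.inv_apply_self]
  refine ⟨l, fun t => ?_, fun u π => A.inj _ _ I₀ h₀ ?_⟩
  · induction t using FreeGroup.induction_on with
    | C1 => intro π; simp
    | of x =>
      obtain ⟨I, hI, hx, hy⟩ := ok x
      exact e1 hI hy (of_mem_std (Finset.mem_coe.2 hx))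
    | inv_of x _ =>
      obtain ⟨I, hI, hx, hy⟩ := ok x
      exact e1 hI hy (inv_mem (of_mem_std (Finset.mem_coe.2 hx)))
    | mul s t hs ht =>
      intro π
      rw [map_mul, map_mul, map_mul, Equiv.Perm.mul_apply, Equiv.Perm.mul_apply, hs, ht]
  · filter_upwards [hl (A.l u π) I₀ h₀ hy₀, (td hy₀).eventually (A.l_rep u π I₀ h₀),
      A.l_rep (a u) (l π) I₀ h₀, hl π I₀ h₀ hy₀] with w e1 e2 e3 e4
    rw [e1, e2, e3, e4, map_mul, map_mul, map_inv]

/-- The automorphisms that are compatible with `j`. -/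
def Cmp {A : Type} [Group A] (ρ : Out A →* Out F) (j : F →* A) : Subgroup (MulAut A) where
  carrier := {γ | ∀ a : MulAut F, mkOut F a = ρ (mkOut A γ) →
    ∃ t, ∀ u, j (a u) = t * γ (j u) * t⁻¹}
  one_mem' := fun a ha => by
    rw [map_one, map_one] at ha
    obtain ⟨g, rfl⟩ := mkOut_eq_one.1 ha
    exact ⟨j g, fun u => by simp⟩
  mul_mem' := fun {γ δ} hγ hδ a ha => by
    obtain ⟨b, hb⟩ := mkOut_surjective F (ρ (mkOut A δ))
    obtain ⟨s, hs⟩ := hγ (a * b⁻¹) (by
      rw [map_mul, map_inv, ha, hb, map_mul, map_mul, mul_inv_cancel_right])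
    obtain ⟨t, ht⟩ := hδ b hb
    refine ⟨s * γ t, fun u => ?_⟩
    have := hs (b u)
    rw [MulAut.mul_apply, MulAut.inv_apply_self, ht, map_mul, map_mul, map_inv] at this
    rw [this, MulAut.mul_apply]
    group
  inv_mem' := fun {γ} hγ a ha => by
    obtain ⟨t, ht⟩ := hγ a⁻¹ (by rw [map_inv, ha, map_inv, map_inv, inv_inv])
    refine ⟨(γ⁻¹ t)⁻¹, fun u => ?_⟩
    have := congrArg (fun x => γ⁻¹ x) (ht (a u))
    simp only [MulAut.inv_apply_self, map_mul, map_inv] at this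
    rw [this]
    group

theorem mem_NA_two {Y : Set α} {γ : MulAut (FreeGroup α)}
    (h1 : ∀ x, x ∉ Y → γ (FreeGroup.of x) = FreeGroup.of x)
    (h2 : ∀ x ∈ Y, γ (FreeGroup.of x) ∈ std Y) (h3 : ∀ x ∈ Y, γ⁻¹ (FreeGroup.of x) ∈ std Y) :
    γ ∈ NA Y := mem_NA_of h1 (fun _ hw => aut_mem_std h2 hw) fun _ hw => aut_mem_std h3 hw

/-- A subgroup that contains the automorphisms involving at most two letters is everything. -/
theorem eq_top [Finite α] (H : Subgroup (MulAut (FreeGroup α)))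
    (h : ∀ Y : Finset α, Y.card ≤ 2 → NA (Y : Set α) ≤ H) : H = ⊤ := by
  classical
  have := Fintype.ofFinite α
  refine H28.sniel α H (fun γ a b hab h1 h2 => ?_) (fun γ a h1 h2 => ?_) fun γ σ h1 => ?_
  · have e : γ = tw (a, true) (FreeGroup.of b) := aut_ext fun x => by
      by_cases hx : x = a
      · rw [hx, h1, tw_true (of_mem_std_compl hab.symm)]
      · rw [h2 x hx, tw_of_ne _ _ hx]
    rw [e]
    exact h {a, b} Finset.card_le_two (tw_mem_NA (by simp) (of_mem_std (by simp)))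
  · have e : γ = flip a := aut_ext fun x => by
      by_cases hx : x = a
      · rw [hx, h1, flip_self]
      · rw [h2 x hx, flip_of_ne hx]
    rw [e]
    exact h {a} (by simp) (flip_mem_NA (by simp))
  · have e : γ = permAut σ := aut_ext fun x => by rw [h1, permAut_of]
    rw [e]
    clear e h1
    induction σ using Equiv.Perm.swap_induction_on with
    | one =>
      have e : permAut (1 : Equiv.Perm α) = 1 := aut_ext fun x => by rw [permAut_of]; rfl
      rw [e]
      exact H.one_mem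
    | swap_mul f x y _ ih =>
      have e : permAut (Equiv.swap x y * f) = permAut (Equiv.swap x y) * permAut f :=
        aut_ext fun z => by rw [MulAut.mul_apply, permAut_of, permAut_of, permAut_of]; rfl
      have e2 : (permAut (Equiv.swap x y))⁻¹ = permAut (Equiv.swap x y) :=
        inv_eq_of_mul_eq_one_right (aut_ext fun z => by
          rw [MulAut.mul_apply, permAut_of, permAut_of, Equiv.swap_apply_self]; rfl)
      have e3 : ∀ z ∈ (({x, y} : Finset α) : Set α),
          permAut (Equiv.swap x y) (FreeGroup.of z) ∈ std (({x, y} : Finset α) : Set α) := by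
        intro z hz
        rw [permAut_of]
        refine of_mem_std ?_
        simp only [Finset.coe_insert, Finset.coe_singleton, Set.mem_insert_iff,
          Set.mem_singleton_iff] at hz ⊢
        rcases hz with rfl | rfl <;> simp
      rw [e]
      refine H.mul_mem (h {x, y} Finset.card_le_two
        (mem_NA_two (fun z hz => ?_) e3 (by rwa [e2]))) ih
      simp only [Finset.coe_insert, Finset.coe_singleton, Set.mem_insert_iff,
        Set.mem_singleton_iff, not_or] at hz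
      rw [permAut_of, Equiv.swap_apply_of_ne_of_ne hz.1 hz.2]

theorem cover_of_acts [Finite α] (hn : 8 ≤ Nat.card α) (hP : PortSys ρ P) (A : Acts P) (π₀ : A.Φ)
    (hl : ∀ u π, A.l u π = π → u = 1)
    (hT : ∃ T : Set A.Φ, T.Finite ∧ ∀ π, ∃ π₀ ∈ T, ∃ u, π = A.l u π₀)
    (hr : ∀ t π, A.r t π = π → t = 1) (ht : ∀ π π', ∃ t, A.r t π = π') :
    ∃ j : F →* FreeGroup α, Cover ρ j := by
  choose s hs using ht π₀
  have hu : ∀ u v, A.r u π₀ = A.r v π₀ → u = v := by
    intro u v h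
    have h2 : A.r (v⁻¹ * u) π₀ = π₀ := by
      rw [map_mul, Equiv.Perm.mul_apply, h, ← Equiv.Perm.mul_apply, ← map_mul, inv_mul_cancel,
        map_one, Equiv.Perm.one_apply]
    exact (inv_mul_eq_one.1 (hr _ _ h2)).symm
  let j : F →* FreeGroup α := MonoidHom.mk' (fun u => (s (A.l u π₀))⁻¹) fun u v => by
    rw [← mul_inv_rev, inv_inj]
    refine hu _ _ ?_
    rw [hs, map_mul, map_mul, Equiv.Perm.mul_apply, Equiv.Perm.mul_apply, hs, ← A.comm, hs]
  have hj : ∀ u, A.r (j u)⁻¹ π₀ = A.l u π₀ := fun u => by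
    change A.r (s (A.l u π₀))⁻¹⁻¹ π₀ = _
    rw [inv_inv, hs]
  refine ⟨j, (injective_iff_map_eq_one j).2 fun u h => hl u π₀ ?_, ?_, ?_⟩
  · rw [← hj, h, inv_one, map_one, Equiv.Perm.one_apply]
  · obtain ⟨T, hT1, hT2⟩ := hT
    have := hT1.to_subtype
    have : Finite (FreeGroup α ⧸ j.range) := by
      refine Finite.of_surjective (fun p : T => (QuotientGroup.mk (s p.1) : _ ⧸ j.range)) ?_
      intro q
      obtain ⟨t, rfl⟩ := QuotientGroup.mk_surjective q
      obtain ⟨p, hp, u, e⟩ := hT2 (A.r t π₀)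
      refine ⟨⟨p, hp⟩, QuotientGroup.eq.2 ⟨u⁻¹, ?_⟩⟩
      rw [← hs p, A.comm, ← hj, ← Equiv.Perm.mul_apply, ← map_mul] at e
      rw [hu _ _ e, map_inv, inv_mul_cancel_left]
    exact Subgroup.finiteIndex_of_finite_quotient
  · have e : Cmp ρ j = ⊤ := eq_top _ fun Y hY γ hγ a ha => by
      obtain ⟨l, h1, h2⟩ := ex_lam hn hP A hY hγ ha
      refine ⟨(s (l π₀))⁻¹, fun u => ?_⟩
      have e1 := h2 u π₀
      rw [← hj u, h1, ← hs (l π₀), A.comm, ← hj, ← Equiv.Perm.mul_apply, ← map_mul,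
        ← Equiv.Perm.mul_apply, ← map_mul] at e1
      have e2 := hu _ _ e1
      rw [map_inv] at e2
      rw [← inv_inj, ← mul_left_cancel_iff (a := s (l π₀)), ← e2]
      group
    intro γ
    have : γ ∈ Cmp ρ j := e ▸ Subgroup.mem_top γ
    exact this

theorem cover [Finite α] (hn : 8 ≤ Nat.card α) (hP : PortSys ρ P) :
    ∃ j : F →* FreeGroup α, Cover ρ j := by
  obtain ⟨T⟩ := rowAtlas α _ ρ P hP
  obtain ⟨A⟩ := rowActs rowInn α _ ρ P hn hP T
  obtain ⟨s, hs⟩ := rowSide _ A.Φ α A.l A.r (A.R ρ) hn A.comm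
    (rowCharts α _ ρ P A hP (rowKI α _ ρ P A hn hP)) (rowTr α _ ρ P A hn hP)
  obtain ⟨hf, ht⟩ := rowOrbit _ A.Φ α A.l A.r s hs
  obtain ⟨I, hI, -, -⟩ := exists_set (α := α) (A := ∅) (Z := ∅) (k := 3)
    (Finset.disjoint_empty_right _) (by simp) (by simp; omega)
  have oI : Ok I := ⟨hI.ge, by omega⟩
  obtain ⟨f, hf0⟩ := hP.ne I oI
  obtain ⟨π₀, -⟩ := A.sur I f oI hf0
  refine cover_of_acts hn hP A π₀ (fun u π h => ?_) ?_ hf ht
  · refine hP.free I (A.rep π) u oI (A.mem π I oI) ?_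
    have e := A.l_rep u π I oI
    rw [h] at e
    exact e.symm
  · obtain ⟨S, hS, hc⟩ := hP.fin I oI
    have hch : ∀ g : FreeGroup α → F, ∃ π₁ : A.Φ, ∀ π u,
        (A.rep π =ᶠ[deep I] fun w => u * g w * u⁻¹) → ∃ v, π = A.l v π₁ := by
      intro g
      by_cases hg : ∃ π u, A.rep π =ᶠ[deep I] fun w => u * g w * u⁻¹
      · obtain ⟨π₁, u₁, e₁⟩ := hg
        refine ⟨π₁, fun π u e => ⟨u * u₁⁻¹, A.inj _ _ I oI ?_⟩⟩
        filter_upwards [e, e₁, A.l_rep (u * u₁⁻¹) π₁ I oI] with w a b c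
        rw [a, c, b]
        group
      · exact ⟨π₀, fun π u e => (hg ⟨π, u, e⟩).elim⟩
    choose j hj using hch
    refine ⟨j '' S, hS.image j, fun π => ?_⟩
    obtain ⟨g, hg, u, e⟩ := hc (A.rep π) (A.mem π I oI)
    exact ⟨j g, ⟨g, hg, rfl⟩, hj g π u e⟩

end Pool.Agent.MP_3ce0a0_al.Q2C
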