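import Pool.Agent.MP_3ce0a0_al.Q2C.Char
import Pool.Agent.MP_3ce0a0_al.Q2.Pre

/-! Every embedding is of covering type; the resulting description of the possible ranks. -/

set_option autoImplicit false

namespace Pool.Agent.MP_3ce0a0_al.Q2C

open H79 Q2T15

theorem aut_one_comm (a b : MulAut (FreeGroup (Fin 1))) : a * b = b * a := by
  have key : ∀ w : FreeGroup (Fin 1), w ∈ Subgroup.zpowers (FreeGroup.of (0 : Fin 1)) := by
    intro w
    induction w using FreeGroup.induction_on with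
    | C1 => exact one_mem _
    | of x => rw [Subsingleton.elim x 0]; exact Subgroup.mem_zpowers _
    | inv_of x h => exact inv_mem h
    | mul x y hx hy => exact mul_mem hx hy
  refine aut_ext fun x => ?_
  obtain ⟨i, hi⟩ := Subgroup.mem_zpowers_iff.1 (key (a (FreeGroup.of 0)))
  obtain ⟨k, hk⟩ := Subgroup.mem_zpowers_iff.1 (key (b (FreeGroup.of 0)))
  rw [Subsingleton.elim x 0, MulAut.mul_apply, MulAut.mul_apply, ← hi, ← hk, map_zpow, map_zpow,
    ← hi, ← hk, ← zpow_mul, ← zpow_mul, mul_comm]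

theorem not_emb_one {n : ℕ} (hn : 3 ≤ n) (φ : Out (FreeGroup (Fin n)) →* Out (FreeGroup (Fin 1))) :
    ¬ Function.Injective φ := by
  intro hφ
  let x : Fin n := ⟨0, by omega⟩
  let p : Fin n := ⟨1, by omega⟩
  let q : Fin n := ⟨2, by omega⟩
  have hpq : p ≠ q := by simp [p, q]
  have hp : p ≠ x := by simp [p, x]
  have hq : q ≠ x := by simp [q, x]
  have cm : ∀ s t : Out (FreeGroup (Fin 1)), s * t = t * s := fun s t => by
    obtain ⟨a, rfl⟩ := mkOut_surjective _ s
    obtain ⟨b, rfl⟩ := mkOut_surjective _ t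
    rw [← map_mul, ← map_mul, aut_one_comm]
  have h1 : tau (x, true) (FreeGroup.of p * FreeGroup.of q * (FreeGroup.of q * FreeGroup.of p)⁻¹) =
      1 := hφ (by
    rw [map_mul, map_mul, map_inv, map_inv, map_mul, map_mul, map_mul, map_mul, cm (φ _) (φ _),
      mul_inv_cancel, map_one])
  have mp := of_mem_std_compl hp
  have mq := of_mem_std_compl hq
  have h2 := tau_eq_one (h := (x, true)) hpq hp hq
    (mul_mem (mul_mem mp mq) (inv_mem (mul_mem mq mp))) h1
  have h3 := congrArg (FreeGroup.lift fun i =>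
    if i = p then Equiv.swap (0 : Fin 3) 1 else Equiv.swap 1 2) (mul_inv_eq_one.1 h2)
  simp only [map_mul, FreeGroup.lift_apply_of, if_pos, if_neg hpq.symm] at h3
  exact absurd h3 (by decide)

/-- Every embedding is induced by a subgroup of finite index. -/
theorem cover_of (hL : Q2T12.LemK) {n m : ℕ} (hn : 15 ≤ n) (hm : 1 ≤ m)
    (ρ : Out (FreeGroup (Fin n)) →* Out (FreeGroup (Fin m))) (hρ : Function.Injective ρ) :
    ∃ j : FreeGroup (Fin m) →* FreeGroup (Fin n), Cover ρ j := by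
  rcases hm.eq_or_lt with rfl | hm
  · exact absurd hρ (not_emb_one (by omega) ρ)
  have hc : 15 ≤ Fintype.card (Fin n) := by simpa using hn
  obtain ⟨P, hP⟩ := Q2T13.t13 (Fin n) _ ρ hρ (by omega) fun L hL' => by
    obtain ⟨S, D, h⟩ := Q2T12.s4c_of (Q2T9.sdl Q2.propD) Q2T10.t10 Q2.kol Q2T12.hFam Q2T12.sChr
      (Fin n) (Fin m) ρ L hc hL' (Q2.nonab hm)
    exact Q2T12.s4d hL Q2T12.sSq (Fin n) _ ρ L S D hc hL' (Q2.nonab hm) h
  exact cover (by simp; omega) hP

theorem char_of (hL : Q2T12.LemK) {n m : ℕ} (hn : 15 ≤ n) (hm : 1 ≤ m) :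
    (∃ φ : Out (FreeGroup (Fin n)) →* Out (FreeGroup (Fin m)), Function.Injective φ) ↔
      ∃ Γ : Subgroup (MulAut (FreeGroup (Fin n))), Γ ⊔ Inn (FreeGroup (Fin n)) = ⊤ ∧
        Γ.index ≠ 0 ∧ m = 1 + Γ.index * (n - 1) := by
  constructor
  · rintro ⟨φ, hφ⟩
    obtain ⟨j, hj⟩ := cover_of hL hn hm φ hφ
    exact gamma_of_emb (by omega) (Q2.nonab (by omega)) hj
  · rintro ⟨Γ, h1, h2, h3⟩
    exact emb_of_gamma (by omega) h1 h2 h3

end Pool.Agent.MP_3ce0a0_al.Q2C
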